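import Pool.Agent.Q237.LV.B11

/-!
# Large central values in every coset of a subgroup of small index
-/

set_option autoImplicit false

namespace Pool.Agent.Results.MP_3e6494_nt.AllCosets

open Finset Filter Pool.Agent.Q237.LV

theorem index_eq {q : ℕ} [Fact q.Prime] (H : Subgroup (DirichletCharacter ℂ q)) :
    H.index = (kf H).card := by
  have h1 := card_mul_card H
  have h2 : Nat.card (DirichletCharacter ℂ q) = q.totient := by
    rw [DirichletCharacter.card_eq_totient_of_hasEnoughRootsOfUnity ℂ q]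
  have h3 := Subgroup.card_mul_index H
  rw [hf_card] at h1
  have h4 : 0 < Nat.card H := Nat.card_pos
  exact Nat.eq_of_mul_eq_mul_left h4 (by rw [h3, h2, h1])

/-- **Main theorem.** -/
theorem result : ∀ ε : ℝ, 0 < ε → ∃ c : ℝ, 0 < c ∧ ∃ q0 : ℕ,
    ∀ (q : ℕ) [Fact q.Prime], q0 ≤ q →
    ∀ H : Subgroup (DirichletCharacter ℂ q),
      Real.log H.index ≤ c * Real.sqrt (Real.log q * Real.log (Real.log q)) →
    ∀ χ₀ : DirichletCharacter ℂ q, ∃ ψ ∈ H, χ₀ * ψ ≠ 1 ∧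
      Real.exp ((1 / Real.sqrt 2 - ε) * Real.sqrt (Real.log q / Real.log (Real.log q))) ≤
        ‖(χ₀ * ψ).LFunction (1 / 2)‖ := by
  intro ε hε
  obtain ⟨c, hc, h⟩ := mainB (min (ε / 26) (1 / 40)) (by positivity) (min_le_right _ _)
  refine ⟨c, hc, ?_⟩
  obtain ⟨q0, hq0⟩ := eventually_atTop.1 h
  refine ⟨q0, fun q _ hq H hH χ₀ => ?_⟩
  rw [index_eq] at hH
  obtain ⟨ψ, hψ, hne, hbig⟩ := hq0 q hq H hH χ₀
  refine ⟨ψ, mem_hf.1 hψ, hne, le_trans (Real.exp_le_exp.2 ?_) hbig⟩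
  refine mul_le_mul_of_nonneg_right ?_ (Real.sqrt_nonneg _)
  have h1 := min_le_left (ε / 26) (1 / 40 : ℝ)
  linarith

end Pool.Agent.Results.MP_3e6494_nt.AllCosets
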