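import Pool.Agent.Q237.LV.FinB

/-!
# Large central values in almost all cosets of every subgroup of size at least `κ q ^ ε`
-/

set_option autoImplicit false

namespace Pool.Agent.Results.MP_3e6494_nt.AlmostAllCosets

open Finset Filter Pool.Agent.Q237.LV

/-- the cosets of `H` on which every nonprincipal character `χ` has `|L(χ, 1/2)| < exp V` -/
def SmallCosets {q : ℕ} [Fact q.Prime] (H : Subgroup (DirichletCharacter ℂ q)) (V : ℝ) :
    Set (DirichletCharacter ℂ q ⧸ H) :=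
  {C | ∀ χ : DirichletCharacter ℂ q, (χ : DirichletCharacter ℂ q ⧸ H) = C → χ ≠ 1 →
    ‖χ.LFunction (1 / 2)‖ < Real.exp V}

open scoped Classical in
theorem card_small {q : ℕ} [Fact q.Prime] (H : Subgroup (DirichletCharacter ℂ q)) (V : ℝ) :
    (badL H V).card = Nat.card H * Nat.card (SmallCosets H V) := by
  rw [← Nat.card_prod, ← Nat.card_congr
    (QuotientGroup.preimageMkEquivSubgroupProdSet H (SmallCosets H V))]
  have h : (badL H V : Set (DirichletCharacter ℂ q)) =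
      QuotientGroup.mk ⁻¹' (SmallCosets H V) := by
    ext χ
    unfold badL SmallCosets
    rw [Finset.mem_coe, mem_filter, Set.mem_preimage, Set.mem_ofPred_eq]
    constructor
    · rintro ⟨-, h⟩ ψ hψ hne
      have h1 : χ⁻¹ * ψ ∈ H := QuotientGroup.eq.1 hψ.symm
      have h2 := h (χ⁻¹ * ψ) (mem_hf.2 h1)
      rw [mul_inv_cancel_left] at h2
      exact h2 hne
    · intro h
      refine ⟨mem_univ _, fun ψ hψ hne => h (χ * ψ) ?_ hne⟩
      rw [eq_comm, QuotientGroup.eq, inv_mul_cancel_left]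
      exact mem_hf.1 hψ
  rw [← h]
  simp

/-- **Main theorem.** -/
theorem result : ∀ ε κ : ℝ, 0 < ε → 0 < κ → ∃ c : ℝ, 0 < c ∧ ∃ q0 : ℕ,
    ∀ (q : ℕ) [Fact q.Prime], q0 ≤ q →
    ∀ H : Subgroup (DirichletCharacter ℂ q), κ * (q : ℝ) ^ ε ≤ Nat.card H →
    ∀ V : ℝ, Real.log q ^ (1 / 3 : ℝ) ≤ V →
      V ≤ c * Real.sqrt (Real.log q / Real.log (Real.log q)) →
      (Nat.card (SmallCosets H V) : ℝ) ≤ Real.exp (-(c * (Real.log q / V ^ 2))) * H.index := by
  intro ε κ hε hκ
  obtain ⟨c, hc, h⟩ := main_small (min (ε / 2) (1 / 4)) (by positivity) (min_le_right _ _)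
  refine ⟨c, hc, ?_⟩
  obtain ⟨q0, hq0⟩ := eventually_atTop.1 (h.and (ev1 (1 / κ) (ε / 2) (by positivity)))
  refine ⟨q0, fun q _ hq H hH V hV1 hV2 => ?_⟩
  obtain ⟨h1, h2⟩ := hq0 q hq
  have hqp : q.Prime := Fact.out
  have hq1 : (1 : ℝ) ≤ q := by exact_mod_cast hqp.one_lt.le
  have hqpos : (0 : ℝ) < q := by linarith
  have hH' : (q : ℝ) ^ (min (ε / 2) (1 / 4)) ≤ (hf H).card := by
    rw [hf_card]
    refine le_trans ?_ hH
    refine (Real.rpow_le_rpow_of_exponent_le hq1 (min_le_left _ _)).trans ?_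
    have h3 : (q : ℝ) ^ ε = (q : ℝ) ^ (ε / 2) * (q : ℝ) ^ (ε / 2) := by
      rw [← Real.rpow_add hqpos]
      congr 1
      ring
    rw [div_le_iff₀ hκ] at h2
    rw [h3]
    have h4 : 0 < (q : ℝ) ^ (ε / 2) := Real.rpow_pos_of_pos hqpos _
    nlinarith
  have h3 := h1 H hH' V hV1 hV2
  rw [card_small H V] at h3
  have h4 : (q.totient : ℝ) = Nat.card H * H.index := by
    have h5 : Nat.card (DirichletCharacter ℂ q) = q.totient := by
      rw [DirichletCharacter.card_eq_totient_of_hasEnoughRootsOfUnity ℂ q]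
    rw [← h5, ← Subgroup.card_mul_index H]
    push_cast
    rfl
  rw [h4] at h3
  have h5 : (0 : ℝ) < Nat.card H := by exact_mod_cast Nat.card_pos
  push_cast at h3
  have h6 : (Nat.card H : ℝ) * Nat.card (SmallCosets H V) ≤
      Nat.card H * (Real.exp (-(c * (Real.log q / V ^ 2))) * H.index) := by
    refine h3.trans (le_of_eq ?_)
    ring
  exact le_of_mul_le_mul_left h6 h5

end Pool.Agent.Results.MP_3e6494_nt.AlmostAllCosets
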