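import Pool.Agent.Q255.FG.Final
import Pool.Agent.Q255.FG.U0

/-!
# Large values of twisted central sums over all moduli, for almost every twist

`f ω` is a random completely multiplicative function: the values `f ω p` at the primes are independent and
uniform on the unit circle (`PT`: Haar measure of the infinite torus).

For almost every `f`: the partial sums `∑_{m ≤ n} f(m) χ(m) / √m`, `n ≤ q`, are at most
`exp ((1 + ε) √(log q log log q))` for all large moduli `q` and all characters `χ` modulo `q`, and `1` cannot be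
replaced by a smaller constant: in every interval `(Q, 4 Q]`, `Q` large, there is a prime `q` with a non-principal
character for which `exp ((1 - ε) √(log q log log q))` is reached.
-/

set_option autoImplicit false

open MeasureTheory

namespace Pool.Agent.Results.MP_3e6494_nt.AlmostEveryTwistAllModuli

open Q289.PAM Pool.Agent.Q255.RM Pool.Agent.Q255.FG

theorem result :
    ∀ᵐ ω ∂PT, ∀ ε : ℝ, 0 < ε →
      (∃ Q₀ : ℕ, ∀ q : ℕ, Q₀ ≤ q → ∀ χ : DirichletCharacter ℂ q, ∀ n ≤ q,
        ‖∑ m ∈ Finset.Icc 1 n, f ω m * χ m / (Real.sqrt m : ℂ)‖ <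
          Real.exp ((1 + ε) * Real.sqrt (Real.log q * Real.log (Real.log q)))) ∧
      ∃ Q₀ : ℕ, ∀ Q : ℕ, Q₀ ≤ Q → ∃ q : ℕ, q.Prime ∧ Q < q ∧ q ≤ 4 * Q ∧
        ∃ χ : DirichletCharacter ℂ q, χ ≠ 1 ∧ ∃ n ≤ q,
          Real.exp ((1 - ε) * Real.sqrt (Real.log q * Real.log (Real.log q))) ≤
            ‖∑ m ∈ Finset.Icc 1 n, f ω m * χ m / (Real.sqrt m : ℂ)‖ := by
  exact (all (u0 Pool.Agent.Q154.FG.one Pool.Agent.Q211.FG.prod Pool.Agent.Q211.FG.a1)).2

end Pool.Agent.Results.MP_3e6494_nt.AlmostEveryTwistAllModuli
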