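import Pool.Agent.Q255.FG.Final
import Pool.Agent.Q255.FG.U0

/-!
# Large values of twisted central sums on cosets of characters, for almost every twist

`f ω` is a random completely multiplicative function: the values `f ω p` at the primes are independent and
uniform on the unit circle (`PT`: Haar measure of the infinite torus), `S ω χ n = ∑_{m ≤ n} f(m) χ(m) / √m`,
`big v q = exp (v √(log q log log q))`, `cos q χ H` is the coset `χ H`.

For almost every `f`: for all but `Q exp (-(log Q)^c)` primes `q ≤ Q`, for every subgroup `H` and all but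
`exp (-(log q)^c) (q - 1)` characters `χ₀`, the coset `C = χ₀ H` satisfies the large deviation law
`#{χ ∈ C : max_{n ≤ q} |S(χ, n)| ≥ big v q} = #C q^(-2v² + o(1))` in the whole range in which the right side is
`≥ q^ε`, and the maximum over `C` is `exp ((√(θ/2) + O(ε)) √(log q log log q))` with `#C = q^θ`.
-/

set_option autoImplicit false

open MeasureTheory

namespace Pool.Agent.Results.MP_3e6494_nt.AlmostEveryTwistCosets

open Q289.PAM Pool.Agent.Q255.RM Pool.Agent.Q255.FG

theorem result :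
    ∀ᵐ ω ∂PT, ∀ ε : ℝ, 0 < ε → ε ≤ 1 → ∃ c : ℝ, 0 < c ∧ ∃ Q₀ : ℕ, ∀ Q : ℕ, Q₀ ≤ Q →
      ({q : ℕ | q ≤ Q ∧ q.Prime ∧ ∃ H : Subgroup (DirichletCharacter ℂ q),
          Real.exp (-(Real.log q ^ c)) * (q - 1) <
            ({χ₀ | ¬ (LawC ε q (cos q χ₀ H) ω ∧ MaxLaw ε q (cos q χ₀ H) ω)}.ncard : ℝ)}.ncard : ℝ) ≤
        Q * Real.exp (-(Real.log Q ^ c)) := by
  exact (all (u0 Pool.Agent.Q154.FG.one Pool.Agent.Q211.FG.prod Pool.Agent.Q211.FG.a1)).1

end Pool.Agent.Results.MP_3e6494_nt.AlmostEveryTwistCosets
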